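import Pool.Agent.Work.MP_b0b133_an.Final

/-!
# The sharp extension inequality on the half-cone in dimension four

`f_⋆ = e^{-|ξ|}` is a maximizer of the `L² → L^{10/3}` extension inequality on the half-cone
`{τ = |ξ|}` of `ℝ^{1+4}`, with the Lorentz invariant measure `dξ / |ξ|`.
-/

set_option autoImplicit false
open MeasureTheory Complex Filter
open scoped ENNReal Topology

namespace Pool.Agent.Results.MP_b0b133_an.ConeDimFour

open Pool.Agent.Cone

/-- the norm of `L²(dξ/|ξ|)` -/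
noncomputable def normTwo (f : R4 → ℂ) : ℝ≥0∞ := eLpNorm f 2 sig

/-- the norm of `L^{10/3}(ℝ × ℝ⁴)` -/
noncomputable def normQ (u : R5 → ℂ) : ℝ≥0∞ := eLpNorm u (10 / 3) volume

/-- `f` is in `L²(dξ/|ξ|)` -/
def InTwo (f : R4 → ℂ) : Prop := MemLp f 2 sig

/-- `u` is in `L^{10/3}(ℝ × ℝ⁴)` -/
def InQ (u : R5 → ℂ) : Prop := MemLp u (10 / 3) volume

/-- `u` is the extension of `f`: the `L^{10/3}`-limit of the extension integrals of integrable
`L²`-functions which converge to `f` in `L²` -/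
def IsExt (f : R4 → ℂ) (u : R5 → ℂ) : Prop :=
  InTwo f ∧ InQ u ∧ ∃ s : ℕ → R4 → ℂ, (∀ n, Integrable (s n) sig ∧ InTwo (s n)) ∧
    Tendsto (fun n => normTwo (s n - f)) atTop (𝓝 0) ∧
    Tendsto (fun n => normQ (coneExt (s n) - u)) atTop (𝓝 0)

theorem norm_two {f g : R4 → ℂ} (hf : MemLp f 2 sig) (hg : MemLp g 2 sig) :
    normTwo (f - g) = ENNReal.ofReal ‖hf.toLp f - hg.toLp g‖ := by
  rw [← MemLp.toLp_sub, Lp.norm_toLp, ENNReal.ofReal_toReal (hf.sub hg).2.ne]
  rfl

theorem norm_two' {f : R4 → ℂ} (hf : MemLp f 2 sig) :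
    normTwo f = ENNReal.ofReal ‖hf.toLp f‖ := by
  rw [Lp.norm_toLp, ENNReal.ofReal_toReal hf.2.ne]
  rfl

theorem norm_q' {u : R5 → ℂ} (U : Lp ℂ (10 / 3) (volume : Measure R5)) (h : U =ᵐ[volume] u) :
    normQ u = ENNReal.ofReal ‖U‖ := by
  rw [Lp.norm_def, ENNReal.ofReal_toReal (Lp.eLpNorm_ne_top U)]
  exact eLpNorm_congr_ae h.symm

/-- The theorem: the extension of every `f ∈ L²(dξ/|ξ|)` exists in `L^{10/3}` and is unique, it is
the extension integral if `f` is integrable, and `f_⋆ = e^{-|ξ|}` is a maximizer. -/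
theorem result :
    (∀ f, InTwo f → ∃ u, IsExt f u ∧ ∀ u', IsExt f u' → u' =ᵐ[volume] u) ∧
    (∀ f, InTwo f → Integrable f sig → IsExt f (coneExt f)) ∧
    (InTwo fstar ∧ Integrable fstar sig ∧ normTwo fstar ≠ 0) ∧
    ∀ f u, IsExt f u → normQ u * normTwo fstar ≤ normQ (coneExt fstar) * normTwo f := by
  obtain ⟨T, h1, h2⟩ := main_theorem
  have hstar := memLp_fstar.coeFn_toLp
  have hsi : Integrable fstar sig := (Z_expSpan_mem fstar Z_fstar_mem).1
  -- the key fact
  have key : ∀ f u (hf : MemLp f 2 sig), IsExt f u → T (hf.toLp f) =ᵐ[volume] u := by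
    rintro f u hf ⟨-, hu, s, hs, h3, h4⟩
    have e1 : Tendsto (fun n => ((hs n).2.toLp (s n) : Lp ℂ 2 sig)) atTop (𝓝 (hf.toLp f)) := by
      rw [tendsto_iff_norm_sub_tendsto_zero]
      have h5 := (ENNReal.tendsto_toReal (ENNReal.zero_ne_top)).comp h3
      rw [ENNReal.toReal_zero] at h5
      refine h5.congr fun n => ?_
      simp only [Function.comp]
      rw [norm_two (hs n).2 hf, ENNReal.toReal_ofReal (norm_nonneg _)]
    have e2 := ((T.continuous.tendsto _).comp e1)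
    have e3 : ∀ n, T ((hs n).2.toLp (s n)) =ᵐ[volume] coneExt (s n) := by
      intro n
      have h6 : ((hs n).2.toLp (s n) : R4 → ℂ) =ᵐ[sig] s n := (hs n).2.coeFn_toLp
      rw [← Z_coneExt_congr _ _ h6]
      exact h1 _ ((hs n).1.congr h6.symm)
    have e4 : Tendsto (fun n => T ((hs n).2.toLp (s n))) atTop (𝓝 (hu.toLp u)) := by
      rw [tendsto_iff_norm_sub_tendsto_zero]
      have h5 := (ENNReal.tendsto_toReal (ENNReal.zero_ne_top)).comp h4
      rw [ENNReal.toReal_zero] at h5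
      refine h5.congr fun n => ?_
      simp only [Function.comp]
      have h7 : ((T ((hs n).2.toLp (s n)) - hu.toLp u :
          Lp ℂ (10 / 3) (volume : Measure R5)) : R5 → ℂ) =ᵐ[volume] coneExt (s n) - u := by
        filter_upwards [Lp.coeFn_sub (T ((hs n).2.toLp (s n))) (hu.toLp u), e3 n,
          hu.coeFn_toLp] with a ha hb hc
        rw [ha, Pi.sub_apply, hb, hc, Pi.sub_apply]
      rw [norm_q' _ h7, ENNReal.toReal_ofReal (norm_nonneg _)]
    have e5 : T (hf.toLp f) = hu.toLp u := tendsto_nhds_unique e2 e4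
    rw [e5]
    exact hu.coeFn_toLp
  have hex : ∀ f (hf : MemLp f 2 sig), IsExt f (T (hf.toLp f)) := by
    intro f hf
    have hd : ∀ n : ℕ, ∃ G ∈ Z_D0, ‖G - hf.toLp f‖ < 1 / ((n : ℝ) + 1) := by
      intro n
      obtain ⟨G, hG, hG2⟩ := Metric.mem_closure_iff.1 (Z_D0_dense.closure_eq ▸ Set.mem_univ
        (hf.toLp f)) (1 / ((n : ℝ) + 1)) (by positivity)
      exact ⟨G, hG, by rw [← dist_eq_norm, dist_comm]; exact hG2⟩
    choose G hG hG2 using hd
    have hG3 : Tendsto G atTop (𝓝 (hf.toLp f)) := by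
      rw [tendsto_iff_norm_sub_tendsto_zero]
      exact squeeze_zero (fun n => norm_nonneg _) (fun n => (hG2 n).le)
        tendsto_one_div_add_atTop_nhds_zero_nat
    have hGi : ∀ n, Integrable (G n) sig := fun n => Z_D0_le (hG n)
    refine ⟨hf, Lp.memLp _, fun n => G n, fun n => ⟨hGi n, Lp.memLp _⟩, ?_, ?_⟩
    · have h5 : Tendsto (fun n => ENNReal.ofReal ‖G n - hf.toLp f‖) atTop (𝓝 0) := by
        have := ENNReal.tendsto_ofReal (tendsto_iff_norm_sub_tendsto_zero.1 hG3)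
        rwa [ENNReal.ofReal_zero] at this
      refine h5.congr fun n => ?_
      rw [norm_two (Lp.memLp (G n)) hf, Lp.toLp_coeFn]
    · have h5 : Tendsto (fun n => ENNReal.ofReal ‖T (G n) - T (hf.toLp f)‖) atTop (𝓝 0) := by
        have := ENNReal.tendsto_ofReal (tendsto_iff_norm_sub_tendsto_zero.1
          ((T.continuous.tendsto _).comp hG3))
        rwa [ENNReal.ofReal_zero] at this
      refine h5.congr fun n => ?_
      refine (norm_q' _ ?_).symm
      filter_upwards [Lp.coeFn_sub (T (G n)) (T (hf.toLp f)), h1 (G n) (hGi n)] with a ha hb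
      rw [ha, Pi.sub_apply, hb, Pi.sub_apply]
  refine ⟨fun f hf => ⟨T (MemLp.toLp f hf), hex f hf, fun u' hu' => (key f u' hf hu').symm⟩,
    fun f hf hi => ?_, ⟨memLp_fstar, hsi, ?_⟩, fun f u hfu => ?_⟩
  · have hf' : MemLp f 2 sig := hf
    have h6 : (hf'.toLp f : R4 → ℂ) =ᵐ[sig] f := hf'.coeFn_toLp
    have h7 := h1 _ (hi.congr h6.symm)
    rw [Z_coneExt_congr _ _ h6] at h7
    refine ⟨hf, (memLp_congr_ae h7).1 (Lp.memLp _), fun _ => f, fun _ => ⟨hi, hf⟩, ?_, ?_⟩
    · simp [normTwo]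
    · simp [normQ]
  · rw [norm_two' memLp_fstar]
    have h3 := Z_norm2 (memLp_fstar.toLp fstar)
    have h4 : ∫ ξ, ‖memLp_fstar.toLp fstar ξ‖ ^ 2 ∂sig = ∫ ξ, ‖fstar ξ‖ ^ 2 ∂sig := by
      refine integral_congr_ae ?_
      filter_upwards [hstar] with ξ hξ
      rw [hξ]
    rw [h4, Z_norm_fstar] at h3
    have hpi := Real.pi_pos
    have h5 : 0 < ‖memLp_fstar.toLp fstar‖ ^ 2 := by rw [h3]; positivity
    have h6 : 0 < ‖memLp_fstar.toLp fstar‖ := by
      rcases (norm_nonneg (memLp_fstar.toLp fstar)).lt_or_eq with h | h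
      · exact h
      · rw [← h] at h5; norm_num at h5
    exact (ENNReal.ofReal_pos.2 h6).ne'
  · have hf : MemLp f 2 sig := hfu.1
    have h6 := key f u hf hfu
    have h8 := h1 _ (hsi.congr hstar.symm)
    rw [Z_coneExt_congr _ _ hstar] at h8
    rw [norm_q' _ h6, norm_q' _ h8, norm_two' memLp_fstar, norm_two' hf,
      ← ENNReal.ofReal_mul (norm_nonneg _), ← ENNReal.ofReal_mul (norm_nonneg _)]
    exact ENNReal.ofReal_le_ofReal (h2 _)

end Pool.Agent.Results.MP_b0b133_an.ConeDimFour
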